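import Pool.Agent.Lib.MP_514cbf_ag.Main

namespace Pool.Agent.Results.MP_514cbf_ag.RankSixAndDependence

open Pool.Agent.Lib.MP_514cbf_ag Projectivization
open scoped Classical

theorem result (k : Type*) [Field k] :
    (∀ h, 3 ≤ h → ∀ (c : Adm k h) (m : ℕ) (f : Fin m → MvPolynomial (Fin 3) k),
      Ideal.span (Set.range f) = ptIdeal c.pts →
      (Pencil (cross c.p c.q) c.L Set.univ → Pencil (cross c.p c.q) c.M Set.univ → relType f = 3) ∧
      (¬ Pencil (cross c.p c.q) c.M {i | h ≤ i + 2} → 5 ≤ relType f ∧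
        (¬ Pencil (cross c.p c.q) c.L {i | h ≤ i + 3} → 9 ≤ relType f)) ∧
      (h = 3 → (Xor (Pencil (cross c.p c.q) c.L Set.univ) (Pencil (cross c.p c.q) c.M Set.univ) →
        relType f = 6) ∧ (¬ Pencil (cross c.p c.q) c.L Set.univ →
          ¬ Pencil (cross c.p c.q) c.M Set.univ → relType f = 12))) ∧
    (∀ h, Nonempty (Adm k h) ↔ ∃ g : Fin h × Fin 2 → k, Function.Injective g) ∧
    (∀ h, 3 ≤ h → Nonempty (Adm k h) → 3 ∈ vals k h ∧ ∃ n ∈ vals k h, 9 ≤ n) ∧
    (Nonempty (Adm k 3) → vals k 3 = {3, 6, 12}) := by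
  refine ⟨fun h hh c m f hf => ?_, fun _ => nonempty_iff, fun h hh H => ?_, fun H => ?_⟩
  · obtain ⟨h, rfl⟩ := Nat.exists_eq_add_of_le' hh
    refine ⟨val_three hf, val_ge hf, fun e => ?_⟩
    obtain rfl : h = 0 := by omega
    exact val_six hf
  · obtain ⟨h, rfl⟩ := Nat.exists_eq_add_of_le' hh
    obtain ⟨c, a1, a2, -⟩ := exists_types H True True
    obtain ⟨c', -, -, b1, b2⟩ := exists_types H False False
    obtain ⟨m, f, hf⟩ := exists_fam c
    obtain ⟨m', f', hf'⟩ := exists_fam c'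
    exact ⟨⟨c, m, f, hf, val_three hf (a1 trivial) (a2 trivial)⟩, _, ⟨c', m', f', hf', rfl⟩,
      (val_ge hf' (b2 id)).2 fun e => b1 id (e.mono fun i hi => Nat.le_succ_of_le hi)⟩
  · refine Set.ext fun n => ⟨fun ⟨c, m, f, hf, e⟩ => ?_, fun hn => ?_⟩
    · have k1 := val_three (h := 0) hf
      have k2 := val_six hf
      rw [Xor] at k2
      by_cases e1 : Pencil (cross c.p c.q) c.L Set.univ <;>
        by_cases e2 : Pencil (cross c.p c.q) c.M Set.univ <;> simp_all
    · obtain ⟨c, a1, a2, a3, a4⟩ := exists_types (h := 0) H (n ≠ 12) (n = 3)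
      obtain ⟨m, f, hf⟩ := exists_fam c
      refine ⟨c, m, f, hf, ?_⟩
      rcases hn with rfl | rfl | rfl
      · exact val_three (h := 0) hf (a1 (by norm_num)) (a2 rfl)
      · exact (val_six hf).1 (.inl ⟨a1 (by norm_num), fun e => a4 (by norm_num) (e.mono (by simp))⟩)
      · exact (val_six hf).2 (fun e => a3 (by norm_num) (e.mono (by simp)))
          fun e => a4 (by norm_num) (e.mono (by simp))

end Pool.Agent.Results.MP_514cbf_ag.RankSixAndDependence
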