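import Pool.Agent.Lib.MP_514cbf_ag.UnbE

namespace Pool.Agent.Results.MP_514cbf_ag.Unbounded

open Pool.Agent.Lib.MP_514cbf_ag

theorem result (k : Type*) [Field k] (h : ℕ) (hh : 6 ≤ h)
    (hk : ∃ g : Fin (4 * h - 10) → k, Function.Injective g) :
    ∃ n ∈ vals k h, 2 * h - 4 ≤ n := by
  obtain ⟨m, rfl⟩ := Nat.exists_eq_add_of_le' hh
  obtain ⟨g, hg⟩ := hk
  obtain ⟨n, h1, h2⟩ := exists_big (m := m) (hg.comp
    (finProdFinEquiv.trans (finCongr (by omega))).injective)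
  exact ⟨n, h1, by omega⟩

end Pool.Agent.Results.MP_514cbf_ag.Unbounded
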